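import Pool.Agent.helper45.SGK.Spec

/-!
# SGK, row LBK: the lower bound for predicates which are not rigid
-/

set_option autoImplicit false

namespace Pool.Agent.SGK

open Finset Pool.Agent.helper38.Neg Pool.Agent.helper55.NT
open Pool.Agent.SGC (Sg SCirc Ext Mv hw RN Solv stA stB)

theorem LBK_sub {t : ℕ} (V : Submodule (ZMod 2) (Sg t)) (w : Fin t) :
    ∃ V' : Submodule (ZMod 2) (Sg t), V' ≤ V ∧ (∀ γ ∈ V', γ w = 0) ∧
      Module.finrank (ZMod 2) V ≤ Module.finrank (ZMod 2) V' + 1 := by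
  let f : V →ₗ[ZMod 2] ZMod 2 := (LinearMap.proj (R := ZMod 2) (φ := fun _ : Fin t => ZMod 2) w).domRestrict V
  refine ⟨(LinearMap.ker f).map V.subtype, Submodule.map_subtype_le _ _, ?_, ?_⟩
  · rintro γ ⟨y, hy, rfl⟩
    have h : f y = 0 := hy
    exact h
  · have h1 := LinearMap.finrank_range_add_finrank_ker f
    have h2 : Module.finrank (ZMod 2) (LinearMap.range f) ≤ 1 := by
      have h3 := Submodule.finrank_le (LinearMap.range f)
      rwa [Module.finrank_self] at h3
    have h4 := Submodule.finrank_map_subtype_eq V (LinearMap.ker f)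
    rw [h4]
    omega

theorem LBK (hSTK : STK_stmt) (hCOK : COK_stmt) (hGAD : GAD_stmt) (hEQK : EQK_stmt) (hINK : INK_stmt)
    (hSEK : SEK_stmt) (hVEX : Pool.Agent.SGC.VEX_stmt) (hNUM : Pool.Agent.SGC.NUM_stmt) : LBK_stmt := by
  intro k _ P hP n s V C hS hC
  have hcard : ∀ U : Submodule (ZMod 2) (Sg (tw k n)), Nat.card U = 2 ^ Module.finrank (ZMod 2) U := by
    intro U
    rw [Module.natCard_eq_pow_finrank (K := ZMod 2), Nat.card_zmod]
  by_contra hlt
  rw [not_le] at hlt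
  rcases Nat.eq_zero_or_pos (tw k n) with ht | ht
  · have h1 : Module.finrank (ZMod 2) V ≤ 0 := by
      have h2 := Submodule.finrank_le V
      rw [Module.finrank_fin_fun] at h2
      omega
    rw [hcard, Nat.le_zero.mp h1, pow_zero] at hlt
    have h3 : 0 < (s + 2) ^ 241 := by positivity
    omega
  · let w : Fin (tw k n) := ⟨0, ht⟩
    obtain ⟨V', hV', hw0, hfr⟩ := LBK_sub V w
    rw [hcard] at hlt
    have hlt' : (s + 2) ^ 240 < 2 ^ Module.finrank (ZMod 2) V' := by
      have h1 : 2 * (s + 2) ^ 240 ≤ (s + 2) ^ 241 := by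
        rw [pow_succ (s + 2) 240, mul_comm]
        exact Nat.mul_le_mul_left _ (by omega)
      have h2 : 2 ^ Module.finrank (ZMod 2) V ≤ 2 ^ (Module.finrank (ZMod 2) V' + 1) :=
        Nat.pow_le_pow_right (by omega) hfr
      rw [pow_succ] at h2
      generalize (s + 2) ^ 240 = A at *
      generalize (s + 2) ^ 241 = B at *
      generalize 2 ^ Module.finrank (ZMod 2) V' = D at *
      generalize 2 ^ Module.finrank (ZMod 2) V = E at *
      omega
    obtain ⟨m, hm, hm15, hm5⟩ := hNUM s _ hlt'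
    have hS' : Symm V' C := fun γ hγ => hS γ (hV' hγ)
    obtain ⟨H, hH⟩ := hSTK k n s V' C hS'
    obtain ⟨G⟩ := hGAD k P hP
    obtain ⟨v, hv, hy⟩ := hVEX (tw k n) s m V' H hm (fun g => ⟨(hH g).1, (hH g).2.1⟩) hm15 hm5
    obtain ⟨f, hf⟩ := hCOK n s (2 * (5 * m)) (2 * m) (tw k n) C gl H v (G.inst v w) (by omega) (by omega)
      (fun g => (hH g).2.2)
      (fun g γ hγ b => hEQK k n _ P G v w b γ (hw0 γ ((hH g).1 hγ)))
      (fun g γ hγ p f b h1 h2 => hINK k n _ P G v w p γ f b h1 h2) hv hy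
    obtain ⟨hs1, hs2⟩ := hSEK k n (2 * (5 * m)) P G v w (even_two_mul _) hv
    have h1 := (hC _).mpr hs1
    rw [hf 1] at h1
    exact hs2 f ((hC _).mp h1)

end Pool.Agent.SGK
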